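import Pool.Agent.R811.Shad.Values

/-!
# The LMO invariant of the homology spheres obtained by surgery on the diagrams with a given shadow

Diagrams (starting library `Pool.Agent.H891R2.Jones.Diagram`): `Diagram P` (oriented link diagrams with marked
points `P`), `Diagram.IsClosed` (the pieces fit together to closed oriented curves), `Diagram.fPoly` (the normalised
bracket `f`, a Laurent polynomial in `A = T 1`; the Jones polynomial is `V(t) = f(t^(-1/4))`), `moment 2 f` (the sum of
`c_k k ^ 2` for `f = ∑ c_k A ^ k`).  `Pool.Agent.TH561.PK.Defs` (starting library): `IsKnot D`.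
`Pool.Agent.H832R3.VJ.Defs` (starting library): `Dia` (a diagram with its finite set of marked points).
`Pool.Agent.R811.Cross.Defs`: `Shadow n` (the shadow of an oriented knot diagram with `n` double points: a Gauss
code with directions), `G.diagram s` (the diagram with shadow `G` whose crossing `i` is positive if `s i` and
negative otherwise), `G.Interlaced i j` (running through the curve one meets `j` exactly once between the two
passages through `i`); `Pool.Agent.R811.Cross.Bigon`: `G.Antiparallel i j` (an edge from `i` to `j`, and on the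
other strands an edge from `j` to `i`).  `dia G s` is `G.diagram s` with its marked points.

What is used of the theory of integral homology spheres is contained in `CassonData`, where
`Sphere` is the set of the integral homology 3-spheres: `1/m`-surgery on the classical knots, and Casson's
invariant with its surgery formula `λ(S³_{1/m}(K)) = m a₂(K)` (Casson; `a₂ = Δ''(1)/2 = - V''(1)/6`, which is
`- moment 2 f / 96`, since `moment 1 f = 0` for knots).  Of the LMO invariant only the fact is used that it
determines Casson's invariant (its part of degree `1` is a multiple of Casson's invariant).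
-/

set_option autoImplicit false

namespace Pool.Agent.Results.MP_27a3bb_gt.SurgeriesOnShadows

open Finset LaurentPolynomial Pool.Agent.H891R2.Jones Pool.Agent.H832R3.VJ Pool.Agent.R811.Cross
open Pool.Agent.R811.VS Pool.Agent.R811.Shad

/-- the coefficient `a₂ = - V''(1) / 6` of a knot diagram -/
noncomputable def a₂ (X : Dia) : ℚ := -(moment 2 X.D.fPoly : ℚ) / 96

/-- the integral homology spheres, the surgeries on classical knots and Casson's invariant -/
structure CassonData (Sphere : Type) where
  /-- the oriented plane knot diagrams, i.e. the diagrams of the knots in `S³` -/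
  classical : Set Dia
  /-- `surgery X m` is the result of `1/m`-surgery on the knot with diagram `X` -/
  surgery : Dia → ℤ → Sphere
  /-- Casson's invariant -/
  casson : Sphere → ℚ
  /-- Casson's surgery formula -/
  formula : ∀ X ∈ classical, ∀ m : ℤ, casson (surgery X m) = m * a₂ X

open Classical in
/-- the diagrams such that two of the surgeries on it have the same LMO invariant -/
noncomputable def bad {Sphere Val : Type} (C : CassonData Sphere) (LMO : Sphere → Val) {n : ℕ} (G : Shadow n) :
    Finset (Fin n → Bool) :=
  {s | ¬ Function.Injective (fun m : ℤ => LMO (C.surgery (dia G s) m))}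

open Classical in
/-- the diagrams for which `1/m`-surgery yields the same LMO invariant as the homology sphere `M` -/
noncomputable def same {Sphere Val : Type} (C : CassonData Sphere) (LMO : Sphere → Val) {n : ℕ} (G : Shadow n)
    (m : ℤ) (M : Sphere) : Finset (Fin n → Bool) :=
  {s | LMO (C.surgery (dia G s) m) = LMO M}

section

variable {Sphere Val : Type} (C : CassonData Sphere) (LMO : Sphere → Val)
  (hLMO : ∀ M M', LMO M = LMO M' → C.casson M = C.casson M') {n : ℕ} (G : Shadow n)
  (hG : ∀ s, dia G s ∈ C.classical)

include hLMO hG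

theorem bad_sub : bad C LMO G ⊆ (univ : Finset (Fin n → Bool)).filter (fun s => F G s = 0) := by
  classical
  intro s hs
  unfold bad at hs
  rw [mem_filter] at hs ⊢
  refine ⟨hs.1, ?_⟩
  by_contra hne
  apply hs.2
  intro m m' h
  have h1 := hLMO _ _ h
  rw [C.formula _ (hG s), C.formula _ (hG s)] at h1
  have h2 : a₂ (dia G s) ≠ 0 := by
    unfold a₂
    have : (moment 2 (dia G s).D.fPoly : ℚ) ≠ 0 := by
      intro h0
      apply hne
      have : moment 2 (dia G s).D.fPoly = 0 := by exact_mod_cast h0
      exact this
    intro h0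
    apply this
    linarith
  exact_mod_cast mul_right_cancel₀ h2 h1

theorem same_sub (m : ℤ) (hm : m ≠ 0) (M : Sphere) :
    ∃ c : ℤ, same C LMO G m M ⊆ (univ : Finset (Fin n → Bool)).filter (fun s => F G s = c) := by
  classical
  have key : ∀ s ∈ same C LMO G m M, (F G s : ℚ) = -96 * C.casson M / m := by
    intro s hs
    unfold same at hs
    rw [mem_filter] at hs
    have h1 := hLMO _ _ hs.2
    rw [C.formula _ (hG s)] at h1
    unfold a₂ at h1
    have hm' : (m : ℚ) ≠ 0 := by exact_mod_cast hm
    have e : (moment 2 (dia G s).D.fPoly : ℚ) = (F G s : ℚ) := rfl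
    rw [e] at h1
    rw [← h1]
    field_simp
  rcases (same C LMO G m M).eq_empty_or_nonempty with h | ⟨s₀, h₀⟩
  · exact ⟨0, by rw [h]; exact empty_subset _⟩
  · refine ⟨F G s₀, fun s hs => ?_⟩
    rw [mem_filter]
    refine ⟨mem_univ _, ?_⟩
    have e1 := key s hs
    have e2 := key s₀ h₀
    exact_mod_cast e1.trans e2.symm

theorem differ (m : ℤ) (hm : m ≠ 0) (s t : Fin n → Bool) (h : cutSize G s ≠ cutSize G t) :
    LMO (C.surgery (dia G s) m) ≠ LMO (C.surgery (dia G t) m) := by
  intro he
  have h1 := hLMO _ _ he
  rw [C.formula _ (hG s), C.formula _ (hG t)] at h1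
  have hm' : (m : ℚ) ≠ 0 := by exact_mod_cast hm
  have h2 := mul_left_cancel₀ hm' h1
  unfold a₂ at h2
  have e1 : (moment 2 (dia G s).D.fPoly : ℚ) = (F G s : ℚ) := rfl
  have e2 : (moment 2 (dia G t).D.fPoly : ℚ) = (F G t : ℚ) := rfl
  rw [e1, e2] at h2
  have h3 : (F G s : ℚ) = F G t := by linarith
  have h4 : F G s = F G t := by exact_mod_cast h3
  rcases Nat.eq_zero_or_pos n with rfl | hn
  · exact h (by congr 1; funext i; exact i.elim0)
  · obtain ⟨K, hK⟩ := F_cut G hn
    rw [hK, hK] at h4
    exact h (by omega)

end

open Classical in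
/-- Let `LMO` be an invariant of integral homology spheres which determines Casson's invariant, such as the LMO
invariant, and let `G` be the shadow of an oriented plane knot diagram with `n` double points.

* If two double points are interlaced, then for at least one quarter of the `2 ^ n` diagrams `D_s` with shadow `G` the
  homology spheres `S³_{1/m}(D_s)`, `m ∈ ℤ`, are pairwise distinguished by `LMO`, and, for given `m ≠ 0` and
  `M`, for at least one quarter of the diagrams `S³_{1/m}(D_s)` and `M` are distinguished by `LMO`.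
* If there are `ν` pairwise disjoint pairs of interlaced double points, the same is true for all diagrams
  but a proportion of `(162 / ν) ^ (1/4)`.
* If every double point is interlaced with another one and there are no antiparallel bigons, the same is true for all
  diagrams but a proportion of `(1620 / n) ^ (1/4)`.
* If `l` double points are interlaced with other ones, there is a set `S` of at least `l / 3 + 1` of the diagrams such
  that for every `m ≠ 0` the homology spheres `S³_{1/m}(D_s)`, `s ∈ S`, are pairwise distinguished by `LMO`. -/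
theorem result {Sphere Val : Type} (C : CassonData Sphere) (LMO : Sphere → Val)
    (hLMO : ∀ M M', LMO M = LMO M' → C.casson M = C.casson M') (n : ℕ) (G : Shadow n)
    (hG : ∀ s, dia G s ∈ C.classical) :
    ((∃ i j, G.Interlaced i j) → 4 * #(bad C LMO G) ≤ 3 * 2 ^ n ∧
      ∀ m : ℤ, m ≠ 0 → ∀ M, 4 * #(same C LMO G m M) ≤ 3 * 2 ^ n) ∧
    (∀ (ν : ℕ) (u w : Fin ν → Fin n), Function.Injective (Sum.elim u w) →
      (∀ k, G.Interlaced (u k) (w k)) → ν * #(bad C LMO G) ^ 4 ≤ 162 * 16 ^ n ∧
      ∀ m : ℤ, m ≠ 0 → ∀ M, ν * #(same C LMO G m M) ^ 4 ≤ 162 * 16 ^ n) ∧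
    ((∀ i, ∃ j, G.Interlaced i j) → (∀ i j, i ≠ j → ¬ G.Antiparallel i j) →
      n * #(bad C LMO G) ^ 4 ≤ 1620 * 16 ^ n ∧
      ∀ m : ℤ, m ≠ 0 → ∀ M, n * #(same C LMO G m M) ^ 4 ≤ 1620 * 16 ^ n) ∧
    ∃ S : Finset (Fin n → Bool), #{i | ∃ j, G.Interlaced i j} + 3 ≤ 3 * #S ∧
      ∀ m : ℤ, m ≠ 0 → ∀ s ∈ S, ∀ t ∈ S, s ≠ t →
        LMO (C.surgery (dia G s) m) ≠ LMO (C.surgery (dia G t) m) := by
  have hb := bad_sub C LMO hLMO G hG
  have hs := same_sub C LMO hLMO G hG
  refine ⟨?_, ?_, ?_, ?_⟩
  · rintro ⟨i, j, hij⟩
    refine ⟨(Nat.mul_le_mul_left 4 (card_le_card hb)).trans ?_, fun m hm M => ?_⟩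
    · convert quarter2 G hij 0
    · obtain ⟨c, hc⟩ := hs m hm M
      refine (Nat.mul_le_mul_left 4 (card_le_card hc)).trans ?_
      convert quarter2 G hij c
  · intro ν u w h1 h2
    refine ⟨(Nat.mul_le_mul_left ν (Nat.pow_le_pow_left (card_le_card hb) 4)).trans ?_, fun m hm M => ?_⟩
    · convert anti2 G u w h1 h2 0
    · obtain ⟨c, hc⟩ := hs m hm M
      refine (Nat.mul_le_mul_left ν (Nat.pow_le_pow_left (card_le_card hc) 4)).trans ?_
      convert anti2 G u w h1 h2 c
  · intro h1 h2
    obtain ⟨ν, u, w, h3, h4, h5⟩ := matching G h1 h2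
    have key : ∀ c : ℤ, n * #((univ : Finset (Fin n → Bool)).filter (fun s => F G s = c)) ^ 4 ≤ 1620 * 16 ^ n := by
      intro c
      have h : ν * #((univ : Finset (Fin n → Bool)).filter (fun s => F G s = c)) ^ 4 ≤ 162 * 16 ^ n := by
        convert anti2 G u w h3 h4 c
      calc n * #((univ : Finset (Fin n → Bool)).filter (fun s => F G s = c)) ^ 4
          ≤ (10 * ν) * #((univ : Finset (Fin n → Bool)).filter (fun s => F G s = c)) ^ 4 :=
            Nat.mul_le_mul_right _ h5
        _ = 10 * (ν * #((univ : Finset (Fin n → Bool)).filter (fun s => F G s = c)) ^ 4) := by ring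
        _ ≤ 10 * (162 * 16 ^ n) := Nat.mul_le_mul_left _ h
        _ = 1620 * 16 ^ n := by ring
    refine ⟨(Nat.mul_le_mul_left n (Nat.pow_le_pow_left (card_le_card hb) 4)).trans (key 0),
      fun m hm M => ?_⟩
    obtain ⟨c, hc⟩ := hs m hm M
    exact (Nat.mul_le_mul_left n (Nat.pow_le_pow_left (card_le_card hc) 4)).trans (key c)
  · obtain ⟨S, h1, h2⟩ := exists_many G
    exact ⟨S, h1, fun m hm s hs' t ht hst => differ C LMO hLMO G hG m hm s t (h2 s hs' t ht hst)⟩

end Pool.Agent.Results.MP_27a3bb_gt.SurgeriesOnShadows
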